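import Pool.Agent.helper30.QP.SpecK
import Pool.Agent.helper7.IG.Basic

/-!
# QP (MP_ebc808_nt): row INO, integral elements have no negative exponents
-/

set_option autoImplicit false

open Polynomial Pool.Agent.helper7.IG

noncomputable section

namespace Pool.Agent.QP

/-- the valuation of the Laurent series -/
def INO_v : Valuation LL (Multiplicative (WithTop ℤ)ᵒᵈ) := AddValuation.toValuation (HahnSeries.addVal ℤ kk)

theorem INO_mem (y : LL) : y ∈ INO_v.integer ↔ ∀ n : ℤ, n < 0 → y.coeff n = 0 := by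
  rw [Valuation.mem_integer_iff]
  have h1 : INO_v y ≤ 1 ↔ (0 : WithTop ℤ) ≤ y.orderTop := by
    unfold INO_v
    rw [AddValuation.toValuation_apply, HahnSeries.addVal_apply]
    exact Iff.rfl
  rw [h1, HahnSeries.zero_le_orderTop_iff]
  constructor
  · intro h n hn
    exact HahnSeries.coeff_eq_zero_of_lt_order (lt_of_lt_of_le hn h)
  · intro h
    by_contra h2
    push Not at h2
    have h3 := h _ h2
    have h4 : y = 0 := HahnSeries.coeff_order_eq_zero.1 h3
    rw [h4, HahnSeries.order_zero] at h2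
    exact lt_irrefl _ h2

theorem INO_int (x y : LL) (hx : ∀ n : ℤ, n < 0 → x.coeff n = 0) (hy : IsIntegral (Algebra.adjoin kk {x}) y) :
    ∀ n : ℤ, n < 0 → y.coeff n = 0 := by
  have hA : ∀ z ∈ Algebra.adjoin kk {x}, z ∈ INO_v.integer := by
    intro z hz
    refine Algebra.adjoin_induction (p := fun z _ => z ∈ INO_v.integer) (fun z hz => ?_) (fun r => ?_)
      (fun z z' _ _ h h' => Subring.add_mem _ h h') (fun z z' _ _ h h' => Subring.mul_mem _ h h') hz
    · rw [Set.mem_singleton_iff.1 hz]
      exact (INO_mem x).2 hx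
    · refine (INO_mem _).2 fun n hn => ?_
      rw [Algebra.algebraMap_eq_smul_one, HahnSeries.coeff_smul, HahnSeries.coeff_one, if_neg hn.ne, smul_zero]
  obtain ⟨P, hPm, hP⟩ := hy
  obtain ⟨f, hf⟩ : ∃ f : Algebra.adjoin kk {x} →+* INO_v.integer, ∀ z, ((f z : INO_v.integer) : LL) = (z : LL) :=
    ⟨((Algebra.adjoin kk {x}).val.toRingHom).codRestrict INO_v.integer fun z => hA z z.2, fun z => rfl⟩
  have hint : IsIntegral INO_v.integer y := by
    refine ⟨P.map f, hPm.map f, ?_⟩
    rw [eval₂_map]
    have h1 : (algebraMap INO_v.integer LL).comp f = algebraMap (Algebra.adjoin kk {x}) LL :=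
      RingHom.ext fun z => hf z
    rw [h1]
    exact hP
  exact (INO_mem y).1 ((Valuation.integer.integers INO_v).mem_of_integral hint)

theorem INO : INO_stmt := by
  intro e ζ y he hy
  refine INO_int (sig e ζ DDk) y (fun n hn => ?_) hy
  rw [sig_coeff he]
  split_ifs with h
  · have h1 : n / (e : ℤ) < 0 := Int.ediv_neg_of_neg_of_pos hn (by exact_mod_cast Nat.pos_of_ne_zero he)
    rw [DDk_coeff, if_neg, mul_zero]
    rintro ⟨m, hm, -⟩
    have := sq_nonneg m
    omega
  · rfl

end Pool.Agent.QP
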