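import Pool.Agent.helper30.QP.SpecK
import Pool.Agent.helper34.QP.PNB

/-!
# QP (MP_ebc808_nt): row PNI, neighbours are integral
-/

set_option autoImplicit false

open Polynomial Pool.Agent.helper7.IG

noncomputable section

namespace Pool.Agent.QP

theorem PNI_int (b x : LL) (Ψ : Polynomial (Polynomial kk)) (hm : Ψ.Monic)
    (h : (Ψ.map (Polynomial.aeval (R := kk) b).toRingHom).eval x = 0) : IsIntegral (Algebra.adjoin kk {b}) x := by
  obtain ⟨b', hb'⟩ : ∃ b' : Algebra.adjoin kk {b}, (b' : LL) = b := ⟨⟨b, Algebra.subset_adjoin rfl⟩, rfl⟩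
  refine ⟨Ψ.map (Polynomial.aeval (R := kk) b').toRingHom, hm.map _, ?_⟩
  have h1 : (algebraMap (Algebra.adjoin kk {b}) LL).comp (Polynomial.aeval (R := kk) b').toRingHom =
      (Polynomial.aeval (R := kk) b).toRingHom := by
    refine RingHom.ext fun p => ?_
    have h2 := Polynomial.aeval_algHom_apply (Algebra.adjoin kk {b}).val b' p
    have h3 : (Algebra.adjoin kk {b}).val b' = b := hb'
    rw [h3] at h2
    exact h2.symm
  rw [eval₂_map, h1, ← eval_map]
  exact h

theorem PNI (hPSI : PSI_stmt) : PNI_stmt := by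
  intro p v u hp hp2 hv hu hNb
  obtain ⟨Ψ, hm, hn, hd, hΨ⟩ := hPSI p hp hp2
  obtain ⟨ω, hω⟩ := exists_primitive p (hp.odd_of_ne_two hp2)
  have hfac := hΨ ω hω
  have key : PNB_E Ψ (p + 1) (sig v.1 v.2 DDk) (sig u.1 u.2 DDk) = 0 := by
    rcases hNb with ⟨h1, h2⟩ | ⟨h1, h2⟩
    · -- up
      have e1 : PNB_E Ψ (p + 1) (sig p 1 DDk) (sig (p * p) 1 DDk) = 0 := by
        rw [← PNB_E_eval Ψ hm (p + 1) hn, hfac, Polynomial.eval_mul, Polynomial.eval_sub,
          Polynomial.eval_X, Polynomial.eval_C, sub_self, zero_mul]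
      have e2 : sig (p * p) 1 DDk = sig p 1 (sig p 1 DDk) := by
        rw [sig_sig hp.ne_zero hp.ne_zero, one_pow, mul_one]
      rw [e2, ← PNB_E_sig] at e1
      have e3 : PNB_E Ψ (p + 1) DDk (sig p 1 DDk) = 0 :=
        sig_injective p 1 (by rw [e1, map_zero])
      have e4 := congrArg (sig v.1 v.2) e3
      rw [PNB_E_sig, map_zero, sig_sig hv hp.ne_zero, one_mul] at e4
      rw [h1, h2, mul_comm p v.1]
      exact e4
    · -- down
      have e1 : PNB_E Ψ (p + 1) (sig p 1 DDk) DDk = 0 := by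
        rw [← PNB_E_eval Ψ hm (p + 1) hn, hfac, Polynomial.eval_mul, Polynomial.eval_prod,
          Finset.prod_eq_zero (Finset.mem_range.mpr hp.pos), mul_zero]
        rw [Polynomial.eval_sub, Polynomial.eval_X, Polynomial.eval_C, pow_zero,
          sig_one, sub_self]
      have e4 := congrArg (sig u.1 u.2) e1
      rw [PNB_E_sig, map_zero, sig_sig hu hp.ne_zero, one_mul] at e4
      rw [h1, ← h2, mul_comm p u.1]
      exact e4
  refine PNI_int _ _ Ψ hm ?_
  rw [PNB_E_eval Ψ hm (p + 1) hn]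
  exact key

end Pool.Agent.QP
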